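import Pool.Agent.H84.PS.Line

/-!
# Uncovered points on a line for maximal partial spreads of projective 3-space

For every prime power `q`, a maximal partial spread of `PG(3, q)` of deficiency `d ≤ q` with
`q ≤ (q - d) ^ 2` has at most `2 d + 1 - q` uncovered points on every line.
-/

set_option autoImplicit false

namespace Pool.Agent.Results.MP_325208_co.LineBound

/-- **Main theorem.** Let `F` be a finite field with `q` elements and let `S` be a set of
two-dimensional subspaces of `F ^ 4`, any two of which meet in zero, that is maximal with this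
property and does not cover all nonzero vectors. Let `d = q ^ 2 + 1 - |S|` be its deficiency. If
`d ≤ q` and `q ≤ (q - d) ^ 2`, then every two-dimensional subspace `U` of `F ^ 4` contains at most
`2 d + 1 - q` one-dimensional subspaces that lie in no member of `S`. -/
theorem result (F : Type) [Field F] [Fintype F] (S : Finset (Submodule F (Fin 4 → F)))
    (h2 : ∀ W ∈ S, Module.finrank F W = 2)
    (hd : ∀ W ∈ S, ∀ W' ∈ S, W ≠ W' → W ⊓ W' = ⊥)
    (hmax : ∀ U : Submodule F (Fin 4 → F), Module.finrank F U = 2 → U ∉ S → ∃ W ∈ S, U ⊓ W ≠ ⊥)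
    (hh : ∃ v : Fin 4 → F, v ≠ 0 ∧ ∀ W ∈ S, v ∉ W)
    (d : ℕ) (hdS : d + S.card = Fintype.card F ^ 2 + 1) (hdq : d ≤ Fintype.card F)
    (hc : Fintype.card F ≤ (Fintype.card F - d) ^ 2)
    (U : Submodule F (Fin 4 → F)) (hU : Module.finrank F U = 2) :
    Fintype.card F +
      {X : Submodule F (Fin 4 → F) | Module.finrank F X = 1 ∧ X ≤ U ∧ ∀ W ∈ S, ¬ X ≤ W}.ncard
        ≤ 2 * d + 1 := by
  classical
  exact H84.PS.holes_line (by simp) h2 hd hmax hh hdS hdq hc hU

end Pool.Agent.Results.MP_325208_co.LineBound
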