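import Pool.Agent.H16.PM.E

/-!
# A lower bound for the deficiency of maximal partial spreads of projective 3-space

For every prime power `q`, a maximal partial spread of `PG(3, q)` that is not a spread has at most
`q ^ 2 + 1 - 2 q / 3` lines, that is, deficiency at least `2 q / 3`.
-/

set_option autoImplicit false

namespace Pool.Agent.Results.MP_325208_co.TwoThirds

/-- **Main theorem.** Let `F` be a finite field with `q` elements and let `S` be a set of
two-dimensional subspaces of `F ^ 4`, any two of which meet in zero, that is maximal with this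
property and does not cover all nonzero vectors. Then `3 |S| + 2 q ≤ 3 (q ^ 2 + 1)`, that is,
the deficiency `q ^ 2 + 1 - |S|` is at least `2 q / 3`. -/
theorem result (F : Type) [Field F] [Fintype F] (S : Finset (Submodule F (Fin 4 → F)))
    (h2 : ∀ W ∈ S, Module.finrank F W = 2)
    (hd : ∀ W ∈ S, ∀ W' ∈ S, W ≠ W' → W ⊓ W' = ⊥)
    (hmax : ∀ U : Submodule F (Fin 4 → F), Module.finrank F U = 2 → U ∉ S → ∃ W ∈ S, U ⊓ W ≠ ⊥)
    (hh : ∃ v : Fin 4 → F, v ≠ 0 ∧ ∀ W ∈ S, v ∉ W) :
    3 * S.card + 2 * Fintype.card F ≤ 3 * (Fintype.card F ^ 2 + 1) := by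
  classical
  exact H16.PS.main_all (by simp) h2 hd hmax hh

end Pool.Agent.Results.MP_325208_co.TwoThirds
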